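import Pool.Agent.LR.B8.Final
import Pool.Agent.LR.B8.Local
import Pool.Agent.LR.B2b.ExKap
import Pool.Agent.LRT.Transfer

/-!
# The scaling limit of the two-dimensional long-range integer-valued Gaussian free field

Definitions: `Pool.Agent.LR.B8.Model` (model, observables, invariance principle, the three
statements) and `Pool.Agent.LR.Defs` (sites, test functions, Dirichlet integral).

* `MainStatement`: for every `α > 4` there is `β₀ > 0` such that for `0 < β < β₀` there is `σ > 0`
  such that on every bounded open `D` on which the real-valued field with the same energy
  converges, `(n⁻² ∑ f_j(x/n) ψ_x)_j` converges in law to `σ (Φ_D(f_j))_j`.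
* `DomainStatement`: the real-valued field converges on every bounded open set with the segment
  property; `v_D(f) > 0` for `f ≠ 0`; `v_D(f) = ∫ f u` for the classical solution of `-Δu = f`.
* `SlitStatement`: on a square with an irrational slit there is no invariance principle.
-/

set_option autoImplicit false

namespace Pool.Agent.Results.MP_d2cb81_pr.InvariancePrinciple

open Pool.Agent.LR

theorem result : MainStatement ∧ DomainStatement ∧ SlitStatement :=
  final_of (fun _ hα => t3 hα) (fun _ _ hα hβ => exists_kap hα hβ) (fun _ hα => local_ub hα)

end Pool.Agent.Results.MP_d2cb81_pr.InvariancePrinciple
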